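import Pool.Agent.Q140.Bike.Final

/-!
# Hyperbolic-to-elliptic transition of the bicycle monodromy for convex front tracks
-/

namespace Pool.Agent.Results.MP_08099c_gt.SingleTransition

open Pool.Agent.Q140.Bike

/-- For every simple strictly convex closed front track `Γ = (X, Y)` (smooth, parametrised by arc
length, of length `L`, counterclockwise) there is `ℓ₀ > 0` such that the bicycle monodromy is
hyperbolic for every `ℓ < ℓ₀` and elliptic for every `ℓ > ℓ₀`. -/
theorem result (L : ℝ) (X Y : ℝ → ℝ) (hΓ : ConvexTrack L X Y) :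
    ∃ l₀ : ℝ, 0 < l₀ ∧ (∀ l, 0 < l → l < l₀ → Hyperbolic X Y L l) ∧
      ∀ l, l₀ < l → Elliptic X Y L l :=
  transition hΓ

end Pool.Agent.Results.MP_08099c_gt.SingleTransition
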